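import Pool.Agent.helper41.G5.SpecG

/-!
# d2:gCND: freezing coordinates
-/

set_option autoImplicit false

open Filter Topology MeasureTheory

namespace Pool.Agent.helper90.DH

open Pool.Agent.helper64.D2

open Classical in
theorem gCND_card (T : Type) [Fintype T] (p : T → Prop) : (Set.ncard {x | p x} : ℝ) = ∑ x : T, if p x then (1 : ℝ) else 0 := by
  rw [Finset.sum_boole, Set.ncard_eq_toFinset_card']
  congr 2
  ext x
  simp

theorem gCND_ext {A B O : Type} (e : B → A) (he : Function.Injective e) (ω₀ : A → O) (ω : B → O) :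
    Function.extend e (fun b => ω₀ (e b)) (Function.extend e ω ω₀) = ω₀ := by
  funext a
  by_cases h : ∃ b, e b = a
  · obtain ⟨b, rfl⟩ := h
    rw [he.extend_apply]
  · rw [Function.extend_apply' _ _ _ h, Function.extend_apply' _ _ _ h]

theorem gCND : gCND_stmt := by
  classical
  intro A B O _ _ _ e he bad ε hε h
  by_cases hB : Nonempty (B → O)
  · let Φ : (A → O) × (B → O) → (A → O) × (B → O) := fun p => (Function.extend e p.2 p.1, fun b => p.1 (e b))
    have hΦ : Function.Involutive Φ := by
      rintro ⟨ω₀, ω⟩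
      show (Function.extend e (fun b => ω₀ (e b)) (Function.extend e ω ω₀), fun b => Function.extend e ω ω₀ (e b)) = (ω₀, ω)
      rw [gCND_ext e he]
      congr 1
      funext b
      rw [he.extend_apply]
    let g : (A → O) × (B → O) → ℝ := fun p => if bad p.1 then 1 else 0
    have h1 : ∑ p, g (Φ p) = ∑ p, g p := Equiv.sum_comp (hΦ.toPerm Φ) g
    have h2 : ∑ p, g (Φ p) = ∑ ω₀ : A → O, ∑ ω : B → O, if bad (Function.extend e ω ω₀) then (1 : ℝ) else 0 := by
      rw [Fintype.sum_prod_type]
    have h3 : ∑ p, g p = (∑ ω₀ : A → O, if bad ω₀ then (1 : ℝ) else 0) * Nat.card (B → O) := by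
      rw [Fintype.sum_prod_type, Finset.sum_mul]
      apply Finset.sum_congr rfl
      intro ω₀ _
      show ∑ _ω : B → O, (if bad ω₀ then (1 : ℝ) else 0) = _
      rw [Finset.sum_const, Finset.card_univ, Nat.card_eq_fintype_card, nsmul_eq_mul, mul_comm]
    have h4 : ∑ ω₀ : A → O, ∑ ω : B → O, (if bad (Function.extend e ω ω₀) then (1 : ℝ) else 0) ≤
        ∑ _ω₀ : A → O, ε * Nat.card (B → O) := by
      apply Finset.sum_le_sum
      intro ω₀ _
      rw [← gCND_card (B → O) (fun ω => bad (Function.extend e ω ω₀))]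
      exact h ω₀
    rw [Finset.sum_const, Finset.card_univ, nsmul_eq_mul, ← h2, h1, h3] at h4
    have hc : (0 : ℝ) < Nat.card (B → O) := by
      have : 0 < Nat.card (B → O) := Nat.card_pos
      exact_mod_cast this
    rw [gCND_card (A → O) bad, Nat.card_eq_fintype_card]
    have h5 : (Fintype.card (A → O) : ℝ) * (ε * Nat.card (B → O)) = (ε * Fintype.card (A → O)) * Nat.card (B → O) := by ring
    rw [h5] at h4
    exact le_of_mul_le_mul_right h4 hc
  · have hA : IsEmpty (A → O) := ⟨fun ω => hB ⟨fun b => ω (e b)⟩⟩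
    have h1 : {ω : A → O | bad ω} = ∅ := Set.eq_empty_of_isEmpty _
    rw [h1, Set.ncard_empty]
    simp only [Nat.cast_zero]
    positivity

end Pool.Agent.helper90.DH
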